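import Mathlib

set_option autoImplicit false

/-!
# Nonexpanding maps for a family of distances on a set of points over a field `K`
-/

namespace Pool.Agent.H892.PGK

/-- trivial predicate (bookkeeping) -/
abbrev Pr {V : Type*} (_ : V) : Prop := True

/-- The set of rational points, with brackets and weights. -/
structure Sys (K : Type*) [Field K] (V : Type*) (av : V → AbsoluteValue K ℝ) (X : Type*) where
  U : ∀ a b : K, a ≠ 0 → b ≠ 0 → (∀ v, av v a = av v b) → a = b ∨ a = -b
  two : V
  two_lt : av two 2 < 1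
  two_ne : (2 : K) ≠ 0
  c : X → X → K
  c_zero : ∀ x y, c x y = 0 ↔ x = y
  c_symm : ∀ x y, c y x = - c x y
  pl : ∀ a b e g, c a b * c e g - c a e * c b g + c a g * c b e = 0
  N : V → X → ℝ
  N_pos : ∀ p x, 0 < N p x
  ultra : ∀ p : V, Pr p → ∀ x y z,
    av p (c x z) / (N p x * N p z) ≤
      max (av p (c x y) / (N p x * N p y))
        (av p (c y z) / (N p y * N p z))

variable {K : Type*} [Field K] {V : Type*} {av : V → AbsoluteValue K ℝ} {X : Type*}
  (S : Sys K V av X)

include S in
lemma eq_or_neg {a b : K} (hb : b ≠ 0) (ha : a ≠ 0)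
    (h : ∀ p : V, Pr p → av p a = av p b) : a = b ∨ a = -b :=
  S.U a b ha hb (fun v => h v trivial)

/-- the `p`-adic distance -/
noncomputable def Sys.δ (p : V) (x y : X) : ℝ :=
  av p (S.c x y) / (S.N p x * S.N p y)

lemma Sys.ultra' {p : V} (hp : Pr p) (x y z : X) :
    S.δ p x z ≤ max (S.δ p x y) (S.δ p y z) := S.ultra p hp x y z

lemma Sys.symm (p : V) (x y : X) : S.δ p x y = S.δ p y x := by
  unfold Sys.δ
  rw [S.c_symm y x, AbsoluteValue.map_neg, mul_comm (S.N p x)]

lemma Sys.nonneg (p : V) (x y : X) : 0 ≤ S.δ p x y := by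
  unfold Sys.δ
  have h1 := S.N_pos p x
  have h2 := S.N_pos p y
  have h3 : (0 : ℝ) ≤ av p (S.c x y) := (av p).nonneg _
  positivity

lemma Sys.self (p : V) (x : X) : S.δ p x x = 0 := by
  unfold Sys.δ
  rw [(S.c_zero x x).mpr rfl]
  simp

lemma Sys.pos {p : V} (hp : Pr p) {x y : X} (h : x ≠ y) : 0 < S.δ p x y := by
  unfold Sys.δ
  have h1 := S.N_pos p x
  have h2 := S.N_pos p y
  have h3 : S.c x y ≠ 0 := fun h0 => h ((S.c_zero x y).mp h0)
  have h4 : (0 : ℝ) < av p (S.c x y) := (av p).pos h3
  positivity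

lemma Sys.norm_eq (p : V) (x y : X) :
    av p (S.c x y) = S.δ p x y * (S.N p x * S.N p y) := by
  unfold Sys.δ
  have h1 := S.N_pos p x
  have h2 := S.N_pos p y
  field_simp

/-- `f` does not increase any of the distances -/
def Sys.NonExp (f : X → X) : Prop :=
  ∀ p : V, Pr p → ∀ x y, S.δ p (f x) (f y) ≤ S.δ p x y

lemma Sys.NonExp.iterate {S : Sys K V av X} {f : X → X} (hf : S.NonExp f) (n : ℕ) :
    S.NonExp (f^[n]) := by
  induction n with
  | zero => intro p _ x y; exact le_refl _
  | succ n ih =>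
    intro p hp x y
    rw [Function.iterate_succ_apply', Function.iterate_succ_apply']
    exact (hf p hp _ _).trans (ih p hp x y)

/-- the Plücker relation with its `p`-adic absolute values -/
lemma Sys.four (x0 x1 x2 x3 : X) (h01 : x0 ≠ x1) (h02 : x0 ≠ x2) (h03 : x0 ≠ x3) (h12 : x1 ≠ x2)
    (h13 : x1 ≠ x3) (h23 : x2 ≠ x3) :
    ∃ a b e : K, a ≠ 0 ∧ b ≠ 0 ∧ e ≠ 0 ∧ a - b + e = 0 ∧ ∀ p : V, Pr p → ∃ W : ℝ, 0 < W ∧
      av p a = W * (S.δ p x0 x1 * S.δ p x2 x3) ∧
      av p b = W * (S.δ p x0 x2 * S.δ p x1 x3) ∧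
      av p e = W * (S.δ p x0 x3 * S.δ p x1 x2) := by
  have hc : ∀ {x y : X}, x ≠ y → S.c x y ≠ 0 := fun h h0 => h ((S.c_zero _ _).mp h0)
  refine ⟨S.c x0 x1 * S.c x2 x3, S.c x0 x2 * S.c x1 x3, S.c x0 x3 * S.c x1 x2,
    mul_ne_zero (hc h01) (hc h23), mul_ne_zero (hc h02) (hc h13), mul_ne_zero (hc h03) (hc h12),
    S.pl x0 x1 x2 x3, ?_⟩
  intro p hp
  have h0 := S.N_pos p x0
  have h1 := S.N_pos p x1
  have h2 := S.N_pos p x2
  have h3 := S.N_pos p x3
  refine ⟨S.N p x0 * S.N p x1 * S.N p x2 * S.N p x3, by positivity, ?_, ?_, ?_⟩ <;>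
  · rw [map_mul]
    rw [S.norm_eq, S.norm_eq]
    ring

lemma norm_two (p : V) (a : K) : av p (2 * a) = av p 2 * av p a := map_mul _ _ _

include S in
/-- If `|a| = |b|` everywhere then `|e| = |2| |a|`. -/
lemma l1 {a b e : K} (ha : a ≠ 0) (hb : b ≠ 0) (he : e ≠ 0) (h : a - b + e = 0)
    (hab : ∀ p : V, Pr p → av p a = av p b) :
    ∀ p : V, Pr p → av p e =
      av p 2 * av p a := by
  intro p hp
  rcases eq_or_neg S hb ha hab with h1 | h1
  · exfalso; apply he; rw [h1] at h; linear_combination h
  · have : e = -(2 * a) := by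
      have : b = -a := by rw [h1]; ring
      rw [this] at h; linear_combination h
    rw [this, AbsoluteValue.map_neg]
    exact norm_two p a

include S in
/-- If `|a| = |e|` everywhere then `|b| = |2| |a|`. -/
lemma l2 {a b e : K} (ha : a ≠ 0) (hb : b ≠ 0) (he : e ≠ 0) (h : a - b + e = 0)
    (hae : ∀ p : V, Pr p → av p a = av p e) :
    ∀ p : V, Pr p → av p b =
      av p 2 * av p a := by
  intro p hp
  rcases eq_or_neg S he ha hae with h1 | h1
  · have : b = 2 * a := by rw [← h1] at h; linear_combination -h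
    rw [this]
    exact norm_two p a
  · exfalso; apply hb; rw [h1] at h; linear_combination -h

/-! ### Tails -/

theorem Sys.tail {f : X → X} (hf : S.NonExp f) (y : X) (m : ℕ)
    (hm : f (f^[m] y) = f^[m] y) : f (f^[7] y) = f^[7] y := by
  classical
  -- the least such `m`
  have hex : ∃ m, f (f^[m] y) = f^[m] y := ⟨m, hm⟩
  set k := Nat.find hex with hk
  have hfix : f (f^[k] y) = f^[k] y := Nat.find_spec hex
  have hmin : ∀ j < k, f (f^[j] y) ≠ f^[j] y := fun j hj => Nat.find_min hex hj
  have hstay : ∀ i, f^[i] (f^[k] y) = f^[k] y := by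
    intro i
    induction i with
    | zero => rfl
    | succ i ih => rw [Function.iterate_succ_apply', ih, hfix]
  by_cases h8 : k ≤ 7
  · have : f^[7] y = f^[k] y := by
      have h0 : 7 - k + k = 7 := by omega
      have h1 : f^[7] y = f^[7 - k] (f^[k] y) := by
        rw [← Function.iterate_add_apply, h0]
      rw [h1, hstay]
    rw [this, hfix]
  exfalso
  push Not at h8
  let P : ℕ → X := fun j => f^[k - j] y
  have hP0 : f (P 0) = P 0 := hfix
  have hPit : ∀ i j, i + j ≤ k → f^[i] (P (i + j)) = P j := by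
    intro i j hij
    simp only [P]
    rw [← Function.iterate_add_apply]
    congr 2; omega
  have hP0it : ∀ i, f^[i] (P 0) = P 0 := fun i => hstay i
  have hne0 : ∀ j, 0 < j → j ≤ k → P 0 ≠ P j := by
    intro j hj hjk h
    apply hmin (k - j) (by omega)
    have : f^[k - j] y = P 0 := h.symm
    rw [this]; exact hP0
  have hdist : ∀ i j, i < j → j ≤ k → P i ≠ P j := by
    intro i j hij hjk h
    have h1 : f^[i] (P i) = P 0 := by
      have := hPit i 0 (by omega)
      simpa using this
    have h2 : f^[i] (P j) = P (j - i) := by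
      have := hPit i (j - i) (by omega)
      rwa [show i + (j - i) = j by omega] at this
    exact hne0 (j - i) (by omega) (by omega) (by rw [← h1, ← h2, h])
  have hmono : ∀ p : V, Pr p → ∀ i j, i ≤ j → j ≤ k → S.δ p (P 0) (P i) ≤ S.δ p (P 0) (P j) := by
    intro p hp i j hij hjk
    have h1 := hf.iterate (j - i) p hp (P 0) (P j)
    rw [hP0it] at h1
    have h2 : f^[j - i] (P j) = P i := by
      have := hPit (j - i) i (by omega)
      rwa [show j - i + i = j by omega] at this
    rwa [h2] at h1
  have hij : ∀ p : V, Pr p → ∀ i j, 2 * i ≤ j → j ≤ k →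
      S.δ p (P i) (P j) = S.δ p (P 0) (P j) := by
    intro p hp i j hij hjk
    have hi := hmono p hp i j (by omega) hjk
    apply le_antisymm
    · refine (S.ultra' hp (P i) (P 0) (P j)).trans ?_
      rw [S.symm p (P i) (P 0)]
      exact max_le hi (le_refl _)
    · rcases lt_or_eq_of_le hi with h1 | h1
      · have h2 := S.ultra' hp (P 0) (P i) (P j)
        rcases le_max_iff.mp h2 with h3 | h3
        · linarith
        · exact h3
      · rw [← h1]
        have h2 := hmono p hp i (j - i) (by omega) (by omega)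
        have h3 := hf.iterate i p hp (P i) (P j)
        have h4 : f^[i] (P i) = P 0 := by
          have := hPit i 0 (by omega)
          simpa using this
        have h5 : f^[i] (P j) = P (j - i) := by
          have := hPit i (j - i) (by omega)
          rwa [show i + (j - i) = j by omega] at this
        rw [h4, h5] at h3
        linarith
  have key : ∀ i j l, 0 < i → 2 * i ≤ j → 2 * j ≤ l → l ≤ k →
      S.δ S.two (P 0) (P i) = av S.two 2 * S.δ S.two (P 0) (P j) := by
    intro i j l hi hj hl hlk
    obtain ⟨a, b, e, ha, hb, he, hrel, hp⟩ := S.four (P 0) (P i) (P j) (P l)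
      (hdist 0 i hi (by omega)) (hdist 0 j (by omega) (by omega)) (hdist 0 l (by omega) (by omega))
      (hdist i j (by omega) (by omega)) (hdist i l (by omega) (by omega))
      (hdist j l (by omega) (by omega))
    have hbe : ∀ p : V, Pr p → av p b = av p e := by
      intro p hpr
      obtain ⟨W, hW, h1, h2, h3⟩ := hp p hpr
      rw [hij p hpr i l (by omega) (by omega)] at h2
      rw [hij p hpr i j (by omega) (by omega)] at h3
      rw [h2, h3]; ring
    have h2a : a = 2 * b := by
      rcases eq_or_neg S he hb hbe with h1 | h1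
      · exfalso; apply ha; rw [h1] at hrel; linear_combination hrel
      · have : e = -b := by rw [h1]; ring
        rw [this] at hrel; linear_combination hrel
    obtain ⟨W, hW, h1, h2, h3⟩ := hp S.two trivial
    rw [hij S.two trivial j l (by omega) (by omega)] at h1
    rw [hij S.two trivial i l (by omega) (by omega)] at h2
    have h4 := norm_two (av := av) S.two b
    rw [← h2a, h1, h2] at h4
    have h6 : 0 < S.δ S.two (P 0) (P l) := S.pos trivial (hdist 0 l (by omega) (by omega))
    have h7 : (W * S.δ S.two (P 0) (P l)) * S.δ S.two (P 0) (P i) =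
        (W * S.δ S.two (P 0) (P l)) * (av S.two 2 * S.δ S.two (P 0) (P j)) := by
      linarith
    exact mul_left_cancel₀ (by positivity) h7
  have k1 := key 1 2 4 (by norm_num) (by norm_num) (by norm_num) (by omega)
  have k2 := key 1 4 8 (by norm_num) (by norm_num) (by norm_num) (by omega)
  have k3 := key 2 4 8 (by norm_num) (by norm_num) (by norm_num) (by omega)
  have h6 : 0 < S.δ S.two (P 0) (P 4) := S.pos trivial (hdist 0 4 (by omega) (by omega))
  have ht := S.two_lt
  have ht0 : 0 < av S.two 2 := (av S.two).pos S.two_ne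
  rw [k1, k3] at k2
  have h8 := mul_left_cancel₀ ht0.ne' k2
  nlinarith

end Pool.Agent.H892.PGK
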