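import Mathlib
import Pool.Agent.H892.PGK.Cyc
import Pool.Agent.H892.PGR.Loc

set_option autoImplicit false

/-!
# Maps of the projective line over `ℚ` with everywhere potentially good reduction: orbits
-/

namespace Pool.Agent.H892.PGK

open MvPolynomial

open Pool.Agent.H892.PGR (br nm dL nm_pos nm_smul br_smul dL_smul dL_ultra Phi phi_smul dL_phi_le)

/-- The map `[F : G]` over `K` has potentially good reduction at the absolute value `a`: over some
extension `L` of `K` with a nonarchimedean absolute value `w` extending `a` it is, after the change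
of coordinates `A`, given by forms with integral coefficients which map vectors of norm one to
vectors of norm one. -/
def PotGood {K : Type} [Field K] (a : AbsoluteValue K ℝ) (F G : MvPolynomial (Fin 2) K) (d : ℕ) :
    Prop :=
  ∃ (L : Type) (_ : Field L) (_ : Algebra K L) (w : AbsoluteValue L ℝ)
    (A : Matrix (Fin 2) (Fin 2) L) (c : L) (F₁ G₁ : MvPolynomial (Fin 2) L),
    (∀ x y : L, w (x + y) ≤ max (w x) (w y)) ∧
    (∀ q : K, w (algebraMap K L q) = a q) ∧
    A.det ≠ 0 ∧ c ≠ 0 ∧ F₁.IsHomogeneous d ∧ G₁.IsHomogeneous d ∧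
    (∀ s, w (F₁.coeff s) ≤ 1) ∧ (∀ s, w (G₁.coeff s) ≤ 1) ∧
    (∀ u : Fin 2 → L, nm w u = 1 → nm w (Phi F₁ G₁ u) = 1) ∧
    ∀ v : Fin 2 → L,
      A.mulVec (Phi (F.map (algebraMap K L)) (G.map (algebraMap K L)) v) =
        c • Phi F₁ G₁ (A.mulVec v)

variable {K : Type} [Field K]

/-- rational points of the projective line -/
abbrev PP (K : Type) [Field K] := Projectivization K (Fin 2 → K)

lemma br_zero_iff {u v : Fin 2 → K} (hu : u ≠ 0) (hv : v ≠ 0) :
    br u v = 0 ↔ Projectivization.mk K u hu = Projectivization.mk K v hv := by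
  rw [Projectivization.mk_eq_mk_iff']
  constructor
  · intro h
    unfold br at h
    by_cases h0 : v 0 = 0
    · have h1 : v 1 ≠ 0 := by
        intro h1; apply hv; ext i; fin_cases i
        · exact h0
        · exact h1
      rw [h0] at h
      have h2 : u 0 = 0 := by
        have : u 0 * v 1 = 0 := by linear_combination h
        exact (mul_eq_zero.mp this).resolve_right h1
      refine ⟨u 1 / v 1, ?_⟩
      ext i
      fin_cases i
      · simp [h0, h2]
      · simp; field_simp
    · refine ⟨u 0 / v 0, ?_⟩
      ext i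
      fin_cases i
      · simp; field_simp
      · simp only [Pi.smul_apply, smul_eq_mul, Fin.mk_one, Fin.isValue]
        field_simp
        linear_combination h
  · rintro ⟨a, rfl⟩
    unfold br
    simp only [Pi.smul_apply, smul_eq_mul]
    ring

/-- the induced map -/
noncomputable def fX (F G : MvPolynomial (Fin 2) K) (h : ∀ v : Fin 2 → K, v ≠ 0 → Phi F G v ≠ 0)
    (x : PP K) : PP K :=
  Projectivization.mk K (Phi F G x.rep) (h _ x.rep_nonzero)

lemma fX_mk {F G : MvPolynomial (Fin 2) K} {d : ℕ} (hF : F.IsHomogeneous d)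
    (hG : G.IsHomogeneous d) (h : ∀ v : Fin 2 → K, v ≠ 0 → Phi F G v ≠ 0) (v : Fin 2 → K)
    (hv : v ≠ 0) :
    fX F G h (Projectivization.mk K v hv) = Projectivization.mk K (Phi F G v) (h v hv) := by
  unfold fX
  rw [Projectivization.mk_eq_mk_iff']
  obtain ⟨a, ha⟩ := Projectivization.exists_smul_eq_mk_rep K v hv
  refine ⟨(a : K) ^ d, ?_⟩
  rw [← phi_smul hF hG, ← ha]
  rfl

/-- the data at one prime -/
lemma local_data {F G : MvPolynomial (Fin 2) K} {d : ℕ} {a : AbsoluteValue K ℝ}
    (h : ∀ v : Fin 2 → K, v ≠ 0 → Phi F G v ≠ 0) (hp : PotGood a F G d) :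
    ∃ N : PP K → ℝ, (∀ x, 0 < N x) ∧
      (∀ x y z : PP K, a (br x.rep z.rep) / (N x * N z) ≤
        max (a (br x.rep y.rep) / (N x * N y))
          (a (br y.rep z.rep) / (N y * N z))) ∧
      (∀ x y : PP K, a (br (fX F G h x).rep (fX F G h y).rep) /
          (N (fX F G h x) * N (fX F G h y)) ≤
        a (br x.rep y.rep) / (N x * N y)) := by
  obtain ⟨L, _, _, w, A, c, F₁, G₁, hna, hw, hA, hc, hF₁, hG₁, hFi, hGi, hR, hconj⟩ := hp
  let ι : (Fin 2 → K) → (Fin 2 → L) := fun v i => algebraMap K L (v i)
  have hι : ∀ v, v ≠ 0 → ι v ≠ 0 := by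
    intro v hv h0
    apply hv
    ext i
    have : algebraMap K L (v i) = 0 := congrFun h0 i
    exact (map_eq_zero _).mp this
  let B : PP K → (Fin 2 → L) := fun x => A.mulVec (ι x.rep)
  have hA0 : ∀ u : Fin 2 → L, u ≠ 0 → A.mulVec u ≠ 0 := by
    intro u hu h0
    exact hu (Matrix.eq_zero_of_mulVec_eq_zero hA h0)
  have hB : ∀ x, B x ≠ 0 := fun x => hA0 _ (hι _ x.rep_nonzero)
  have hD : 0 < w A.det := w.pos hA
  have hbrA : ∀ u v : Fin 2 → L, br (A.mulVec u) (A.mulVec v) = A.det * br u v := by
    intro u v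
    unfold br
    rw [Matrix.det_fin_two]
    simp only [Matrix.mulVec, dotProduct, Fin.sum_univ_two]
    ring
  have hbrι : ∀ u v : Fin 2 → K, br (ι u) (ι v) = algebraMap K L (br u v) := by
    intro u v
    unfold br
    simp only [ι, map_sub, map_mul]
  have hδ : ∀ x y : PP K, a (br x.rep y.rep) /
      (nm w (B x) / Real.sqrt (w A.det) * (nm w (B y) / Real.sqrt (w A.det))) =
        dL w (B x) (B y) := by
    intro x y
    unfold dL
    simp only [B]
    rw [hbrA, hbrι, map_mul, hw]
    have h1 := nm_pos w (hB x)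
    have h2 := nm_pos w (hB y)
    simp only [B] at h1 h2
    have h3 : Real.sqrt (w A.det) * Real.sqrt (w A.det) = w A.det := Real.mul_self_sqrt hD.le
    have h4 : 0 < Real.sqrt (w A.det) := Real.sqrt_pos.mpr hD
    rw [div_mul_div_comm, h3]
    field_simp
  refine ⟨fun x => nm w (B x) / Real.sqrt (w A.det), ?_, ?_, ?_⟩
  · intro x
    have h1 := nm_pos w (hB x)
    have h4 : 0 < Real.sqrt (w A.det) := Real.sqrt_pos.mpr hD
    positivity
  · intro x y z
    simp only
    rw [hδ, hδ, hδ]
    exact dL_ultra w hna (hB x) (hB y) (hB z)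
  · intro x y
    simp only
    rw [hδ, hδ]
    have hrep : ∀ x : PP K, ∃ μ : L, μ ≠ 0 ∧ B (fX F G h x) = μ • Phi F₁ G₁ (B x) := by
      intro x
      obtain ⟨b, ha⟩ := Projectivization.exists_smul_eq_mk_rep K (Phi F G x.rep)
        (h _ x.rep_nonzero)
      refine ⟨algebraMap K L (b : K) * c,
        mul_ne_zero ((map_ne_zero (algebraMap K L)).mpr b.ne_zero) hc, ?_⟩
      have h1 : (fX F G h x).rep = (b : K) • Phi F G x.rep := by
        unfold fX
        rw [← ha]; rfl
      have h2 : ι ((b : K) • Phi F G x.rep) = algebraMap K L (b : K) •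
          Phi (F.map (algebraMap K L)) (G.map (algebraMap K L)) (ι x.rep) := by
        have hev : ∀ H : MvPolynomial (Fin 2) K,
            algebraMap K L (eval x.rep H) = eval (ι x.rep) (H.map (algebraMap K L)) := by
          intro H
          rw [eval_map]
          exact eval₂_comp (algebraMap K L) x.rep H
        ext i
        fin_cases i
        · change algebraMap K L ((b : K) * eval x.rep F) = algebraMap K L (b : K) *
            eval (ι x.rep) (F.map (algebraMap K L))
          rw [map_mul, hev]
        · change algebraMap K L ((b : K) * eval x.rep G) = algebraMap K L (b : K) *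
            eval (ι x.rep) (G.map (algebraMap K L))
          rw [map_mul, hev]
      simp only [B]
      rw [h1, h2, Matrix.mulVec_smul, hconj, smul_smul]
    obtain ⟨μ, hμ, h1⟩ := hrep x
    obtain ⟨ν, hν, h2⟩ := hrep y
    rw [h1, h2, dL_smul w hμ hν]
    exact dL_phi_le w hna hF₁ hG₁ hFi hGi hR (hB x) (hB y)

/-- the system of distances -/
theorem exists_sys {V : Type*} (av : V → AbsoluteValue K ℝ)
    (U : ∀ a b : K, a ≠ 0 → b ≠ 0 → (∀ v, av v a = av v b) → a = b ∨ a = -b)
    (two : V) (two_lt : av two 2 < 1) (two_ne : (2 : K) ≠ 0)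
    {F G : MvPolynomial (Fin 2) K} {d : ℕ}
    (h : ∀ v : Fin 2 → K, v ≠ 0 → Phi F G v ≠ 0) (hp : ∀ v : V, PotGood (av v) F G d) :
    ∃ S : Sys K V av (PP K), S.NonExp (fX F G h) := by
  classical
  choose N hN1 hN2 hN3 using fun (v : V) => local_data h (hp v)
  refine ⟨{ U := U
            two := two
            two_lt := two_lt
            two_ne := two_ne
            c := fun x y => br x.rep y.rep
            c_zero := ?_
            c_symm := ?_
            pl := ?_
            N := N
            N_pos := hN1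
            ultra := ?_ }, ?_⟩
  · intro x y
    have := br_zero_iff x.rep_nonzero y.rep_nonzero
    rw [Projectivization.mk_rep, Projectivization.mk_rep] at this
    exact this
  · intro x y
    unfold br; ring
  · intro a b e g
    unfold br; ring
  · intro p _ x y z
    exact hN2 p x y z
  · intro p _ x y
    exact hN3 p x y

/-- preperiodic points satisfy `f^96 = f^84` -/
theorem preper {V : Type*} {av : V → AbsoluteValue K ℝ} {X : Type*} {S : Sys K V av X}
    {f : X → X} (hf : S.NonExp f) {x : X} {i j : ℕ}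
    (hij : i < j) (h : f^[i] x = f^[j] x) : f^[96] x = f^[84] x := by
  set y := f^[i] x with hy
  have hper : Function.IsPeriodicPt f (j - i) y := by
    unfold Function.IsPeriodicPt Function.IsFixedPt
    rw [hy, ← Function.iterate_add_apply, show j - i + i = j by omega, ← h]
  have hpos : 0 < Function.minimalPeriod f y :=
    hper.minimalPeriod_pos (by omega)
  have hcyc := cycles hf (x := y) rfl hpos
  have hdvd : Function.minimalPeriod f y ∣ 12 := by
    rcases hcyc with h | h | h | h | h <;> rw [h] <;> norm_num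
  have h12 : f^[12] y = y := Function.isPeriodicPt_iff_minimalPeriod_dvd.mpr hdvd
  have hfix : (f^[12]) ((f^[12])^[i] x) = (f^[12])^[i] x := by
    rw [← Function.iterate_mul]
    have h1 : f^[12 * i] x = f^[11 * i] y := by
      rw [hy, ← Function.iterate_add_apply, show 11 * i + i = 12 * i by omega]
    rw [h1, ← Function.iterate_add_apply, Nat.add_comm, Function.iterate_add_apply, h12]
  have h7 := S.tail (hf.iterate 12) x i hfix
  rw [← Function.iterate_mul, ← Function.iterate_add_apply] at h7
  exact h7

end Pool.Agent.H892.PGK
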